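import Mathlib

set_option autoImplicit false

namespace Pool.Agent.Results.MP_32aa3b_co.ThreeKernelsFail

open Finset

/-- `p 0, p 1, ..., p l` is a directed path of length `l` in `D` (distinct vertices, consecutive arcs). -/
def IsDiPath {V : Type} (D : Digraph V) (l : ℕ) (p : Fin (l + 1) → V) : Prop :=
  Function.Injective p ∧ ∀ i : Fin l, D.Adj (p i.castSucc) (p i.succ)

/-- `Q` is a `q`-kernel of `D`: independent, and every vertex is the endpoint of a directed
path of length at most `q` that starts in `Q`. -/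
def IsQKernel {V : Type} (D : Digraph V) (q : ℕ) (Q : Finset V) : Prop :=
  (∀ u ∈ Q, ∀ v ∈ Q, ¬ D.Adj u v) ∧
    ∀ v : V, ∃ l : ℕ, l ≤ q ∧ ∃ p : Fin (l + 1) → V,
      IsDiPath D l p ∧ p 0 ∈ Q ∧ p (Fin.last l) = v

/-- The minimum in-degree of `D` equals `δ`. -/
def MinInDegreeEq {V : Type} (D : Digraph V) (δ : ℕ) : Prop :=
  (∀ v : V, δ ≤ {u : V | D.Adj u v}.ncard) ∧ ∃ v : V, {u : V | D.Adj u v}.ncard = δ

section construction

variable (δ m r K z w : ℕ)

/-- the vertex set of the construction -/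
abbrev Vx : Type :=
  Fin (δ + 1) ⊕ Fin δ ⊕ (Fin m × Fin z) ⊕ ({R : Finset (Fin m) // R.card = r} × Fin w) ⊕
    ({B : Finset (Fin m) // B.card = K} × Fin (K + 1))

variable {δ m r K z w}

/-- the arcs of the construction -/
def arc : Vx δ m r K z w → Vx δ m r K z w → Prop
  | .inl s, .inl s' => s ≠ s'
  | .inl _, .inr (.inl _) => True
  | .inr (.inl _), .inr (.inr (.inl _)) => True
  | .inr (.inr (.inl a)), .inr (.inr (.inr (.inl b))) => a.1 ∈ b.1.1
  | .inr (.inr (.inr (.inl b))), .inr (.inr (.inr (.inr c))) => Disjoint b.1.1 c.1.1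
  | _, _ => False

/-- the digraph of the construction -/
def dg (δ m r K z w : ℕ) : Digraph (Vx δ m r K z w) := ⟨arc⟩

lemma dg_adj (u v : Vx δ m r K z w) : (dg δ m r K z w).Adj u v ↔ arc u v := Iff.rfl

lemma loopless (v : Vx δ m r K z w) : ¬ (dg δ m r K z w).Adj v v := by
  rw [dg_adj]
  rcases v with s | t | a | b | c <;> simp [arc]

/-- backwards closed sets -/
lemma back_closed {V : Type} (D : Digraph V) (P : V → Prop)
    (hP : ∀ u v, D.Adj u v → P v → P u) :
    ∀ (l : ℕ) (p : Fin (l + 1) → V), (∀ i : Fin l, D.Adj (p i.castSucc) (p i.succ)) →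
      P (p (Fin.last l)) → P (p 0) := by
  intro l
  induction l with
  | zero => intro p _ h; exact h
  | succ l ih =>
    intro p hp h
    have h1 : P (p (Fin.last l).castSucc) := hP _ _ (hp (Fin.last l)) h
    exact ih (fun i => p i.castSucc) (fun i => by
      have := hp i.castSucc
      simpa using this) h1

lemma kernel_card (hr : 1 ≤ r) (hK : K ≤ m) (Q : Finset (Vx δ m r K z w))
    (hQ : IsQKernel (dg δ m r K z w) 3 Q) : K + 2 ≤ Q.card := by
  classical
  obtain ⟨hind, hdom⟩ := hQ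
  -- `Q` meets the source clique
  obtain ⟨s, hs⟩ : ∃ s : Fin (δ + 1), (Sum.inl s : Vx δ m r K z w) ∈ Q := by
    obtain ⟨l, -, p, hp, hp0, hpl⟩ := hdom (Sum.inl 0)
    have := back_closed (dg δ m r K z w) (fun v => ∃ s : Fin (δ + 1), v = Sum.inl s) (by
      rintro u v huv ⟨s, rfl⟩
      rw [dg_adj] at huv
      rcases u with s | t | a | b | c
      · exact ⟨s, rfl⟩
      all_goals exact huv.elim) l p hp.2 ⟨0, hpl⟩
    obtain ⟨s, hs⟩ := this
    exact ⟨s, hs ▸ hp0⟩
  -- `Q` misses the second layer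
  have hT : ∀ t : Fin δ, (Sum.inr (Sum.inl t) : Vx δ m r K z w) ∉ Q := by
    intro t ht
    exact hind _ hs _ ht (by rw [dg_adj]; trivial)
  by_contra hlt
  push Not at hlt
  set Q' := Q.erase (Sum.inl s) with hQ'
  have hQ'card : Q'.card ≤ K := by
    rw [hQ', Finset.card_erase_of_mem hs]; omega
  -- every subset of size r is nonempty; pick an element
  have hne : ∀ R : {R : Finset (Fin m) // R.card = r}, ∃ i, i ∈ R.1 := by
    intro R
    have : 0 < R.1.card := by rw [R.2]; omega
    obtain ⟨i, hi⟩ := Finset.card_pos.mp this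
    exact ⟨i, hi⟩
  choose pick hpick using hne
  let g : Vx δ m r K z w → Finset (Fin m) := fun v =>
    match v with
    | .inr (.inr (.inl a)) => {a.1}
    | .inr (.inr (.inr (.inl b))) => {pick b.1}
    | _ => ∅
  have hg : ∀ v, (g v).card ≤ 1 := by
    intro v
    rcases v with s | t | a | b | c <;> simp [g]
  have hB' : (Q'.biUnion g).card ≤ K := by
    calc (Q'.biUnion g).card ≤ Q'.card * 1 := Finset.card_biUnion_le_card_mul _ _ _ (fun v _ => hg v)
      _ ≤ K := by omega
  obtain ⟨B, hBsub, hBcard⟩ := Finset.exists_superset_card_eq hB' (by simpa using hK)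
  -- one copy of `B` is not in `Q`
  obtain ⟨c, hc⟩ : ∃ c : Fin (K + 1),
      (Sum.inr (Sum.inr (Sum.inr (Sum.inr (⟨B, hBcard⟩, c)))) : Vx δ m r K z w) ∉ Q := by
    by_contra hall
    push Not at hall
    have hinj : Function.Injective (fun c : Fin (K + 1) =>
        (Sum.inr (Sum.inr (Sum.inr (Sum.inr (⟨B, hBcard⟩, c)))) : Vx δ m r K z w)) := by
      intro c c' h
      simpa using h
    have h1 : (Finset.univ.image (fun c : Fin (K + 1) =>
        (Sum.inr (Sum.inr (Sum.inr (Sum.inr (⟨B, hBcard⟩, c)))) : Vx δ m r K z w))) ⊆ Q' := by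
      intro v hv
      rw [Finset.mem_image] at hv
      obtain ⟨c, -, rfl⟩ := hv
      rw [hQ', Finset.mem_erase]
      exact ⟨by simp, hall c⟩
    have h2 := Finset.card_le_card h1
    rw [Finset.card_image_of_injective _ hinj, Finset.card_univ, Fintype.card_fin] at h2
    omega
  obtain ⟨l, hl, p, hp, hp0, hpl⟩ := hdom (Sum.inr (Sum.inr (Sum.inr (Sum.inr (⟨B, hBcard⟩, c)))))
  have hadj := hp.2
  -- membership facts
  have hA : ∀ a : Fin m × Fin z, (Sum.inr (Sum.inr (Sum.inl a)) : Vx δ m r K z w) ∈ Q → a.1 ∈ B := by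
    intro a ha
    apply hBsub
    rw [Finset.mem_biUnion]
    exact ⟨_, by rw [hQ', Finset.mem_erase]; exact ⟨by simp, ha⟩, by simp [g]⟩
  have hBB : ∀ b : {R : Finset (Fin m) // R.card = r} × Fin w,
      (Sum.inr (Sum.inr (Sum.inr (Sum.inl b))) : Vx δ m r K z w) ∈ Q → ¬ Disjoint b.1.1 B := by
    intro b hb hdis
    have : pick b.1 ∈ B := by
      apply hBsub
      rw [Finset.mem_biUnion]
      exact ⟨_, by rw [hQ', Finset.mem_erase]; exact ⟨by simp, hb⟩, by simp [g]⟩
    exact (Finset.disjoint_left.mp hdis (hpick b.1)) this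
  -- in-neighbours
  have in4 : ∀ u : Vx δ m r K z w, arc u (Sum.inr (Sum.inr (Sum.inr (Sum.inr (⟨B, hBcard⟩, c))))) →
      ∃ b : {R : Finset (Fin m) // R.card = r} × Fin w,
        u = Sum.inr (Sum.inr (Sum.inr (Sum.inl b))) ∧ Disjoint b.1.1 B := by
    intro u hu
    rcases u with s | t | a | b | c
    · exact hu.elim
    · exact hu.elim
    · exact hu.elim
    · exact ⟨b, rfl, hu⟩
    · exact hu.elim
  have in3 : ∀ (u : Vx δ m r K z w) (b : {R : Finset (Fin m) // R.card = r} × Fin w),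
      arc u (Sum.inr (Sum.inr (Sum.inr (Sum.inl b)))) →
      ∃ a : Fin m × Fin z, u = Sum.inr (Sum.inr (Sum.inl a)) ∧ a.1 ∈ b.1.1 := by
    intro u b hu
    rcases u with s | t | a | b' | c
    · exact hu.elim
    · exact hu.elim
    · exact ⟨a, rfl, hu⟩
    · exact hu.elim
    · exact hu.elim
  have in2 : ∀ (u : Vx δ m r K z w) (a : Fin m × Fin z),
      arc u (Sum.inr (Sum.inr (Sum.inl a))) →
      ∃ t : Fin δ, u = Sum.inr (Sum.inl t) := by
    intro u a hu
    rcases u with s | t | a | b' | c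
    · exact hu.elim
    · exact ⟨t, rfl⟩
    · exact hu.elim
    · exact hu.elim
    · exact hu.elim
  match l, hl, p, hp0, hpl, hadj with
  | 0, _, p, hp0, hpl, hadj =>
    have : p 0 = p (Fin.last 0) := rfl
    rw [this, hpl] at hp0
    exact hc hp0
  | 1, _, p, hp0, hpl, hadj =>
    have h0 : arc (p 0) (p 1) := hadj 0
    have hpl' : p 1 = _ := hpl
    rw [hpl'] at h0
    obtain ⟨b, hb, hdis⟩ := in4 _ h0
    rw [hb] at hp0
    exact hBB b hp0 hdis
  | 2, _, p, hp0, hpl, hadj =>
    have h0 : arc (p 0) (p 1) := hadj 0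
    have h1 : arc (p 1) (p 2) := hadj 1
    have hpl' : p 2 = _ := hpl
    rw [hpl'] at h1
    obtain ⟨b, hb, hdis⟩ := in4 _ h1
    rw [hb] at h0
    obtain ⟨a, ha, hab⟩ := in3 _ _ h0
    rw [ha] at hp0
    exact (Finset.disjoint_left.mp hdis hab) (hA a hp0)
  | 3, _, p, hp0, hpl, hadj =>
    have h0 : arc (p 0) (p 1) := hadj 0
    have h1 : arc (p 1) (p 2) := hadj 1
    have h2 : arc (p 2) (p 3) := hadj 2
    have hpl' : p 3 = _ := hpl
    rw [hpl'] at h2
    obtain ⟨b, hb, hdis⟩ := in4 _ h2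
    rw [hb] at h1
    obtain ⟨a, ha, hab⟩ := in3 _ _ h1
    rw [ha] at h0
    obtain ⟨t, ht⟩ := in2 _ _ h0
    rw [ht] at hp0
    exact hT t hp0
  | (l + 4), hl, _, _, _, _ => omega

lemma card_subsets (m k : ℕ) : Fintype.card {R : Finset (Fin m) // R.card = k} = m.choose k := by
  classical
  rw [Fintype.card_subtype]
  have : (Finset.univ.filter (fun R : Finset (Fin m) => R.card = k)) =
      Finset.powersetCard k Finset.univ := by
    ext R; simp [Finset.mem_powersetCard]
  rw [this, Finset.card_powersetCard]; simp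

lemma card_Vx : Fintype.card (Vx δ m r K z w) =
    (δ + 1) + (δ + (m * z + (m.choose r * w + m.choose K * (K + 1)))) := by
  simp only [Vx, Fintype.card_sum, Fintype.card_prod, Fintype.card_fin, card_subsets]

lemma minInDegree (hz : δ ≤ r * z) (hw : δ ≤ (m - K).choose r * w) :
    MinInDegreeEq (dg δ m r K z w) δ := by
  classical
  have hinl : ∀ s : Fin (δ + 1),
      {u : Vx δ m r K z w | (dg δ m r K z w).Adj u (Sum.inl s)}.ncard = δ := by
    intro s
    have : {u : Vx δ m r K z w | (dg δ m r K z w).Adj u (Sum.inl s)} =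
        ((Finset.univ.erase s).map ⟨Sum.inl, Sum.inl_injective⟩ : Finset (Vx δ m r K z w)) := by
      ext u
      rcases u with s' | t | a | b | c <;> simp [dg_adj, arc]
    rw [this, Set.ncard_coe_finset, Finset.card_map, Finset.card_erase_of_mem (Finset.mem_univ _)]
    simp
  refine ⟨?_, ⟨Sum.inl 0, hinl 0⟩⟩
  intro v
  rcases v with s | t | a | b | c
  · exact (hinl s).ge
  · have hsub : (((Finset.univ : Finset (Fin (δ + 1))).map ⟨Sum.inl, Sum.inl_injective⟩ :
        Finset (Vx δ m r K z w)) : Set (Vx δ m r K z w)) ⊆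
        {u : Vx δ m r K z w | (dg δ m r K z w).Adj u (Sum.inr (Sum.inl t))} := by
      intro u hu
      simp only [coe_map, Set.mem_image, mem_coe] at hu
      obtain ⟨s, -, rfl⟩ := hu
      trivial
    have := Set.ncard_le_ncard hsub (Set.toFinite _)
    rw [Set.ncard_coe_finset, Finset.card_map] at this
    simp at this
    omega
  · let e : Fin δ ↪ Vx δ m r K z w := ⟨fun t => Sum.inr (Sum.inl t), by intro t t' h; simpa using h⟩
    have hsub : (((Finset.univ : Finset (Fin δ)).map e :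
        Finset (Vx δ m r K z w)) : Set (Vx δ m r K z w)) ⊆
        {u : Vx δ m r K z w | (dg δ m r K z w).Adj u (Sum.inr (Sum.inr (Sum.inl a)))} := by
      intro u hu
      simp only [coe_map, Set.mem_image, mem_coe] at hu
      obtain ⟨s, -, rfl⟩ := hu
      trivial
    have := Set.ncard_le_ncard hsub (Set.toFinite _)
    rw [Set.ncard_coe_finset, Finset.card_map] at this
    simpa using this
  · let e : Fin m × Fin z ↪ Vx δ m r K z w :=
      ⟨fun t => Sum.inr (Sum.inr (Sum.inl t)), by intro t t' h; simpa using h⟩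
    have hsub : (((b.1.1 ×ˢ (Finset.univ : Finset (Fin z))).map e :
        Finset (Vx δ m r K z w)) : Set (Vx δ m r K z w)) ⊆
        {u : Vx δ m r K z w | (dg δ m r K z w).Adj u (Sum.inr (Sum.inr (Sum.inr (Sum.inl b))))} := by
      intro u hu
      simp only [coe_map, Set.mem_image, mem_coe] at hu
      obtain ⟨s, hs, rfl⟩ := hu
      rw [Finset.mem_product] at hs
      exact hs.1
    have := Set.ncard_le_ncard hsub (Set.toFinite _)
    rw [Set.ncard_coe_finset, Finset.card_map, Finset.card_product, b.1.2, Finset.card_univ,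
      Fintype.card_fin] at this
    exact hz.trans this
  · let e : {R : Finset (Fin m) // R.card = r} × Fin w ↪ Vx δ m r K z w :=
      ⟨fun t => Sum.inr (Sum.inr (Sum.inr (Sum.inl t))), by intro t t' h; simpa using h⟩
    have hsub : ((((Finset.univ.filter
          (fun R : {R : Finset (Fin m) // R.card = r} => Disjoint R.1 c.1.1)) ×ˢ
          (Finset.univ : Finset (Fin w))).map e :
        Finset (Vx δ m r K z w)) : Set (Vx δ m r K z w)) ⊆
        {u : Vx δ m r K z w | (dg δ m r K z w).Adj u (Sum.inr (Sum.inr (Sum.inr (Sum.inr c))))} := by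
      intro u hu
      simp only [coe_map, Set.mem_image, mem_coe] at hu
      obtain ⟨s, hs, rfl⟩ := hu
      rw [Finset.mem_product, Finset.mem_filter] at hs
      exact hs.1.2
    have h1 := Set.ncard_le_ncard hsub (Set.toFinite _)
    rw [Set.ncard_coe_finset, Finset.card_map, Finset.card_product, Finset.card_univ,
      Fintype.card_fin] at h1
    have h2 : (m - K).choose r ≤ (Finset.univ.filter
          (fun R : {R : Finset (Fin m) // R.card = r} => Disjoint R.1 c.1.1)).card := by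
      have h3 : (Finset.powersetCard r (c.1.1)ᶜ).card = (m - K).choose r := by
        rw [Finset.card_powersetCard, Finset.card_compl, c.1.2, Fintype.card_fin]
      rw [← h3, ← Finset.card_map (⟨Subtype.val, Subtype.val_injective⟩ :
        {R : Finset (Fin m) // R.card = r} ↪ Finset (Fin m))]
      apply Finset.card_le_card
      intro R hR
      rw [Finset.mem_powersetCard] at hR
      rw [Finset.mem_map]
      refine ⟨⟨R, hR.2⟩, ?_, rfl⟩
      rw [Finset.mem_filter]
      refine ⟨Finset.mem_univ _, ?_⟩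
      exact Finset.disjoint_left.mpr (fun i hi hc => (Finset.mem_compl.mp (hR.1 hi)) hc)
    exact hw.trans (le_trans (Nat.mul_le_mul_right _ h2) h1)

end construction

lemma choose_ratio (K r : ℕ) (h : 2 * r ≤ K) : (2 * K).choose r ≤ 4 ^ r * K.choose r := by
  have h1 : (2 * K).descFactorial r ≤ (2 * K) ^ r := Nat.descFactorial_le_pow _ _
  have h2 : (K + 1 - r) ^ r ≤ K.descFactorial r := Nat.pow_sub_le_descFactorial _ _
  have h3 : (2 * K) ^ r ≤ (4 * (K + 1 - r)) ^ r := Nat.pow_le_pow_left (by omega) r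
  rw [Nat.mul_pow 4] at h3
  have h4 : (2 * K).descFactorial r ≤ 4 ^ r * K.descFactorial r :=
    h1.trans (h3.trans (Nat.mul_le_mul_left _ h2))
  rw [Nat.descFactorial_eq_factorial_mul_choose, Nat.descFactorial_eq_factorial_mul_choose] at h4
  have h5 : r.factorial * (2 * K).choose r ≤ r.factorial * (4 ^ r * K.choose r) := by
    calc r.factorial * (2 * K).choose r ≤ 4 ^ r * (r.factorial * K.choose r) := h4
      _ = r.factorial * (4 ^ r * K.choose r) := by ring
  exact Nat.le_of_mul_le_mul_left h5 (Nat.factorial_pos r)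

/-- The size estimate: with suitable parameters the digraph has fewer than
`(K + 2) (δ + 1) / N` vertices. -/
lemma size_bound (N : ℕ) (hN : 1 ≤ N) : ∃ r K δ₀ : ℕ, 1 ≤ r ∧ 2 * r ≤ K ∧ ∀ δ : ℕ, δ₀ ≤ δ →
    N * ((δ + 1) + (δ + ((2 * K) * (δ / r + 1) +
      ((2 * K).choose r * (δ / K.choose r + 1) + (2 * K).choose K * (K + 1))))) <
      (K + 2) * (δ + 1) := by
  obtain ⟨r, hr⟩ : ∃ r, r = 4 * N := ⟨_, rfl⟩
  obtain ⟨K, hK⟩ : ∃ K, K = 2 * N * (2 + 4 ^ r) := ⟨_, rfl⟩
  have hrK : 2 * r ≤ K := by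
    have : r < 4 ^ r := Nat.lt_pow_self (by norm_num)
    rw [hK]
    have h2 : 2 * N * (2 + 4 ^ r) ≥ 2 * N * r := Nat.mul_le_mul_left _ (by omega)
    have h3 : 2 * N * r ≥ 2 * 1 * r := Nat.mul_le_mul_right _ (by omega)
    omega
  obtain ⟨c, hc⟩ : ∃ c, c = K.choose r := ⟨_, rfl⟩
  have hcpos : 0 < c := hc ▸ Nat.choose_pos (by omega)
  obtain ⟨E, hE⟩ : ∃ E, E = 1 + 2 * K + 4 ^ r * c + (2 * K).choose K * (K + 1) := ⟨_, rfl⟩
  refine ⟨r, K, N * E, by omega, hrK, ?_⟩
  intro δ hδ
  rw [← hc]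
  have h1 : (2 * K).choose r ≤ 4 ^ r * c := hc ▸ choose_ratio K r hrK
  have h2 : (2 * K).choose r * (δ / c + 1) ≤ 4 ^ r * (δ + c) := by
    calc (2 * K).choose r * (δ / c + 1) ≤ (4 ^ r * c) * (δ / c + 1) := Nat.mul_le_mul_right _ h1
      _ = 4 ^ r * (c * (δ / c) + c) := by ring
      _ ≤ 4 ^ r * (δ + c) := by
          apply Nat.mul_le_mul_left
          have := Nat.mul_div_le δ c
          omega
  have h3 : 2 * (N * ((2 * K) * (δ / r + 1))) ≤ K * δ + 4 * N * K := by
    have h4 : r * (δ / r) ≤ δ := Nat.mul_div_le δ r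
    calc 2 * (N * ((2 * K) * (δ / r + 1))) = K * ((4 * N) * (δ / r)) + 4 * N * K := by ring
      _ = K * (r * (δ / r)) + 4 * N * K := by rw [hr]
      _ ≤ K * δ + 4 * N * K := by
          have := Nat.mul_le_mul_left K h4
          omega
  have h5 : 2 * (N * ((δ + 1) + (δ + ((2 * K) * (δ / r + 1) +
      ((2 * K).choose r * (δ / c + 1) + (2 * K).choose K * (K + 1)))))) ≤
      2 * (N * (2 * δ + 1)) + (K * δ + 4 * N * K) + 2 * (N * (4 ^ r * (δ + c))) +
        2 * (N * ((2 * K).choose K * (K + 1))) := by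
    have h6 := Nat.mul_le_mul_left (2 * N) h2
    nlinarith [h3, h6]
  have h7 : 2 * (N * (2 * δ + 1)) + (K * δ + 4 * N * K) + 2 * (N * (4 ^ r * (δ + c))) +
        2 * (N * ((2 * K).choose K * (K + 1))) = K * δ + 2 * N * (2 + 4 ^ r) * δ + 2 * (N * E) := by
    rw [hE]; ring
  rw [h7, ← hK] at h5
  have h8 : K * δ + K * δ + 2 * (N * E) < 2 * ((K + 2) * (δ + 1)) := by
    have : 2 * ((K + 2) * (δ + 1)) = K * δ + K * δ + 4 * δ + 2 * K + 4 := by ring
    rw [this]
    omega
  omega

/-- For every real `C` and every sufficiently large `δ` there is a finite loopless digraph `D`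
whose minimum in-degree equals `δ` and all of whose `3`-kernels have more than
`C |V(D)| / (δ + 1)` vertices. -/
theorem result : ∀ C : ℝ, ∃ δ₀ : ℕ, ∀ δ : ℕ, δ₀ ≤ δ →
    ∃ (V : Type) (_ : Fintype V) (D : Digraph V),
      (∀ v : V, ¬ D.Adj v v) ∧ MinInDegreeEq D δ ∧
        ∀ Q : Finset V, IsQKernel D 3 Q →
          C * ((Fintype.card V : ℝ) / ((δ : ℝ) + 1)) < (Q.card : ℝ) := by
  intro C
  obtain ⟨N, hN1, hNC⟩ : ∃ N : ℕ, 1 ≤ N ∧ C ≤ N := by
    obtain ⟨N, hN⟩ := exists_nat_ge C
    exact ⟨N + 1, by omega, hN.trans (by push_cast; linarith)⟩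
  obtain ⟨r, K, δ₀, hr, hrK, hsize⟩ := size_bound N hN1
  refine ⟨δ₀, fun δ hδ => ?_⟩
  have hs := hsize δ hδ
  refine ⟨Vx δ (2 * K) r K (δ / r + 1) (δ / K.choose r + 1), inferInstance,
    dg δ (2 * K) r K (δ / r + 1) (δ / K.choose r + 1), loopless, ?_, ?_⟩
  · apply minInDegree
    · have := Nat.div_add_mod δ r
      have := Nat.mod_lt δ (show 0 < r by omega)
      nlinarith
    · have hc : 0 < K.choose r := Nat.choose_pos (by omega)
      have h1 : 2 * K - K = K := by omega
      rw [h1]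
      have := Nat.div_add_mod δ (K.choose r)
      have := Nat.mod_lt δ hc
      nlinarith
  · intro Q hQ
    have h1 : K + 2 ≤ Q.card := kernel_card hr (by omega) Q hQ
    rw [← card_Vx] at hs
    set n := Fintype.card (Vx δ (2 * K) r K (δ / r + 1) (δ / K.choose r + 1)) with hn
    have hs' : (N : ℝ) * (n : ℝ) < ((K : ℝ) + 2) * ((δ : ℝ) + 1) := by exact_mod_cast hs
    have hδ1 : (0 : ℝ) < (δ : ℝ) + 1 := by positivity
    have h2 : C * ((n : ℝ) / ((δ : ℝ) + 1)) ≤ N * ((n : ℝ) / ((δ : ℝ) + 1)) :=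
      mul_le_mul_of_nonneg_right hNC (by positivity)
    have h3 : (N : ℝ) * ((n : ℝ) / ((δ : ℝ) + 1)) < (K : ℝ) + 2 := by
      rw [← mul_div_assoc, div_lt_iff₀ hδ1]
      exact hs'
    have h4 : ((K : ℝ) + 2) ≤ (Q.card : ℝ) := by exact_mod_cast h1
    linarith

end Pool.Agent.Results.MP_32aa3b_co.ThreeKernelsFail
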